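import Mathlib

set_option autoImplicit false

namespace PBW64

theorem perm_sub {k U : Type*} [Field k] [Ring U] [Algebra k U] (e : ℤ → U) (A : Set ℤ)
    (hA : ∀ m ∈ A, ∀ n ∈ A, m + n ∈ A ∨ m = n)
    (he : ∀ m n, e m * e n - e n * e m = ((n : k) - m) • e (m + n)) {l l' : List ℤ}
    (h : l.Perm l') : (∀ x ∈ l, x ∈ A) → (l.map e).prod - (l'.map e).prod ∈
      Submodule.span k {u | ∃ w : List ℤ, (∀ x ∈ w, x ∈ A) ∧ w.length < l.length ∧
        u = (w.map e).prod} := by
  induction h with
  | nil =>
    intro _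
    rw [sub_self]
    exact Submodule.zero_mem _
  | cons a hp ih =>
    rename_i l₁ l₂
    intro hl
    have h1 := ih fun x hx => hl x (List.mem_cons_of_mem _ hx)
    have ha : a ∈ A := hl a List.mem_cons_self
    rw [List.map_cons, List.map_cons, List.prod_cons, List.prod_cons, ← mul_sub]
    have h2 : (LinearMap.mulLeft k (e a)) ((l₁.map e).prod - (l₂.map e).prod) ∈
        Submodule.map (LinearMap.mulLeft k (e a)) (Submodule.span k {u | ∃ w : List ℤ,
          (∀ x ∈ w, x ∈ A) ∧ w.length < l₁.length ∧ u = (w.map e).prod}) :=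
      Submodule.mem_map_of_mem h1
    rw [Submodule.map_span] at h2
    refine Submodule.span_mono ?_ h2
    rintro _ ⟨_, ⟨w, hw, hlen, rfl⟩, rfl⟩
    refine ⟨a :: w, ?_, ?_, ?_⟩
    · intro x hx
      rcases List.mem_cons.1 hx with rfl | hx
      · exact ha
      · exact hw x hx
    · simpa using hlen
    · rw [List.map_cons, List.prod_cons]
      rfl
  | swap a b l =>
    intro hl
    have hb : b ∈ A := hl b List.mem_cons_self
    have ha : a ∈ A := hl a (List.mem_cons_of_mem _ List.mem_cons_self)
    simp only [List.map_cons, List.prod_cons]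
    have e1 : e b * (e a * (l.map e).prod) - e a * (e b * (l.map e).prod) =
        ((a : k) - b) • (e (b + a) * (l.map e).prod) := by
      rw [← mul_assoc, ← mul_assoc, ← sub_mul, he, smul_mul_assoc]
    rw [e1]
    rcases hA b hb a ha with h | h
    · apply Submodule.smul_mem
      apply Submodule.subset_span
      refine ⟨(b + a) :: l, ?_, ?_, ?_⟩
      · intro x hx
        rcases List.mem_cons.1 hx with rfl | hx
        · exact h
        · exact hl x (List.mem_cons_of_mem _ (List.mem_cons_of_mem _ hx))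
      · simp
      · rw [List.map_cons, List.prod_cons]
    · rw [h, sub_self, zero_smul]
      exact Submodule.zero_mem _
  | trans h1 h2 ih1 ih2 =>
    rename_i l₁ l₂ l₃
    intro hl
    have i1 := ih1 hl
    have i2 := ih2 fun x hx => hl x (h1.mem_iff.2 hx)
    rw [← h1.length_eq] at i2
    have := Submodule.add_mem _ i1 i2
    rwa [sub_add_sub_cancel] at this

theorem span_sorted {k U : Type*} [Field k] [Ring U] [Algebra k U] (e : ℤ → U) (A : Set ℤ)
    (hA : ∀ m ∈ A, ∀ n ∈ A, m + n ∈ A ∨ m = n)
    (he : ∀ m n, e m * e n - e n * e m = ((n : k) - m) • e (m + n)) :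
    Submodule.span k {u | ∃ l : List ℤ, (∀ x ∈ l, x ∈ A) ∧ u = (l.map e).prod} =
      Submodule.span k {u | ∃ l : List ℤ, (∀ x ∈ l, x ∈ A) ∧ l.Pairwise (· ≤ ·) ∧
        u = (l.map e).prod} := by
  apply le_antisymm
  · rw [Submodule.span_le]
    rintro _ ⟨l, hl, rfl⟩
    generalize hn : l.length = n
    induction n using Nat.strong_induction_on generalizing l with
    | _ n ih =>
      have h1 := perm_sub e A hA he (List.perm_insertionSort (· ≤ ·) l).symm hl
      have h2 : Submodule.span k {u | ∃ w : List ℤ, (∀ x ∈ w, x ∈ A) ∧ w.length < l.length ∧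
          u = (w.map e).prod} ≤ Submodule.span k {u | ∃ l : List ℤ, (∀ x ∈ l, x ∈ A) ∧
            l.Pairwise (· ≤ ·) ∧ u = (l.map e).prod} := by
        rw [Submodule.span_le]
        rintro _ ⟨w, hw, hlen, rfl⟩
        exact ih w.length (hn ▸ hlen) w hw rfl
      have h3 : (((l.insertionSort (· ≤ ·)).map e).prod) ∈ Submodule.span k
          {u | ∃ l : List ℤ, (∀ x ∈ l, x ∈ A) ∧ l.Pairwise (· ≤ ·) ∧ u = (l.map e).prod} := by
        apply Submodule.subset_span
        refine ⟨_, ?_, List.pairwise_insertionSort _ _, rfl⟩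
        intro x hx
        exact hl x ((List.perm_insertionSort (· ≤ ·) l).mem_iff.1 hx)
      have := Submodule.add_mem _ (h2 h1) h3
      rwa [sub_add_cancel] at this
  · apply Submodule.span_mono
    rintro u ⟨l, hl, -, hu⟩
    exact ⟨l, hl, hu⟩

end PBW64
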